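import Pool.Agent.H359R4.Main

/-!
Let `f` be a completely additive function from the positive integers to a finite abelian group
`H`, such that the values of `f` at the primes `p ≡ 1 (mod 4)` generate a subgroup with at least
three elements. Then `f (a^2+1)` takes at least three different values, each of them often: there
are three elements `h` of `H` such that, for arbitrarily large `X`, at least `X / (log X)^41` of the
integers `a` in `(X, 2X]` satisfy `f (a^2+1) = h` and `a^2+1 = s^2 m` with `m` squarefree and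
`s ≤ (log X)^45`.

Example: `f = Ω mod 3`. All three residue classes modulo `3` are taken by `Ω(a^2+1)`, each for at
least `X / (log X)^41` of the integers `a` in `(X, 2X]`, for arbitrarily large `X`.
-/

theorem Pool.Agent.Results.MP_7169d5_nt.ThreeValues.result
    {H : Type} [AddCommGroup H] [Finite H] (f : ℕ → H)
    (hf : ∀ a b : ℕ, a ≠ 0 → b ≠ 0 → f (a * b) = f a + f b)
    (hp : 3 ≤ Nat.card (AddSubgroup.closure {x : H | ∃ p : ℕ, p.Prime ∧ p % 4 = 1 ∧ f p = x})) :
    ∃ S : Finset H, S.card = 3 ∧ ∀ h ∈ S, ∀ X0 : ℕ, ∃ X : ℕ, X0 ≤ X ∧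
      (X : ℝ) / Real.log X ^ 41 ≤ (Set.ncard {a : ℕ | X < a ∧ a ≤ 2 * X ∧ f (a ^ 2 + 1) = h ∧
        ∃ s m : ℕ, a ^ 2 + 1 = s ^ 2 * m ∧ Squarefree m ∧ (s : ℝ) ≤ Real.log X ^ 45} : ℝ) :=
  H359R4.three_values f hf hp
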